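import Pool.Agent.Helper60.QL.Defs
import Pool.Agent.Helper93.ED.Defs

/-!
# QL-D4: the exponential sum of the linear family in all variables, the measure, the statement of the decoupling theorem
-/

open MeasureTheory Real Set Filter Topology

set_option autoImplicit false

namespace Pool.Agent.Helper60.QL

open Pool.Agent.Helper22.AE
open Pool.Agent.Helper92.GC (dt tp Tq uu tt arc dd)
open Pool.Agent.Helper22.AC (IsWt)
open Pool.Agent.Helper93.ED (n20)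
open Pool.Agent.Helper75.TW (m20 IsMul20)

/-- the exponential sum of the linear family in all variables -/
noncomputable def qs (t₀ : ℝ) (S : Finset (ℤ × ℤ)) (a : ℤ × ℤ → ℂ) (q : (ℝ × ℝ) × R3) : ℂ := ∑ k ∈ S, a k * ee (dt k q.1 + ln t₀ q.2 k)

/-- the measure -/
noncomputable def mu3 (v₁ v₂ v₃ : ℝ → ℝ) : Measure ((ℝ × ℝ) × R3) :=
  (volume.restrict Tq).prod ((volume.withDensity fun R => ENNReal.ofReal (v₁ R)).prod
    ((volume.withDensity fun R => ENNReal.ofReal (v₂ R)).prod (volume.withDensity fun R => ENNReal.ofReal (v₃ R))))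

/-- the statement of the decoupling theorem (helper82) -/
def Dec20 (ε lam : ℝ) (M : ℕ) (C : ℝ) : Prop :=
  ∀ (m : ℕ) (H Y t₀ : ℝ) (v₁ v₂ v₃ : ℝ → ℝ) (a : ℤ × ℤ → ℂ) (S : Finset (ℤ × ℤ)), 0 < H → 0 < Y → |t₀| ≤ 3 → IsWt Y v₁ → IsWt Y v₂ → IsWt Y v₃ →
    (∀ k ∈ S, H / lam ≤ uu 0 k ∧ uu 0 k ≤ lam * H ∧ |tt 0 k - t₀| ≤ 1) → C * (M : ℝ) ^ (4 * m) ≤ H * Y →
    n20 (mu3 v₁ v₂ v₃) (qs t₀ S a) ≤ C * (M : ℝ) ^ (ε * (m : ℝ)) * ∑ r ∈ Finset.range (M ^ m), n20 (mu3 v₁ v₂ v₃) (qs t₀ (arc 0 S (M ^ m) r) a)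

end Pool.Agent.Helper60.QL
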