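import Pool.Agent.Helper40.QL.D4
import Pool.Agent.Helper75.TW.A3
import Pool.Agent.Helper92.GC.Q1

/-!
# QL-L4: decoupling of the linear family on a box

The decoupling theorem (`Dec20`, a hypothesis here) for three weights `v_j` with `IsDw (2 r) ((R₀)_j - r) v_j c₀ Cd`: lower bound `c₀/(2r)` on the ball
(sup metric of `ℝ × ℝ × ℝ`), upper bound `Cd 0/(2r)` on the ball of radius `κ r`, outside the tails (`dw_tail`), `lf ≤ card ^ 20`.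
-/

open MeasureTheory Real Set Filter Topology

set_option autoImplicit false

namespace Pool.Agent.Helper60.QL

open Pool.Agent.Helper22.AE
open Pool.Agent.Helper92.GC (dt tp Tq uu tt arc dd IsDw)
open Pool.Agent.Helper22.AC (IsWt)
open Pool.Agent.Helper93.ED (n20)
open Pool.Agent.Helper75.TW (m20 IsMul20)

private theorem tq40 : IsProbabilityMeasure ((volume : Measure (ℝ × ℝ)).restrict Tq) := by
  constructor
  unfold Tq
  rw [Measure.restrict_apply_univ, Measure.volume_eq_prod, Measure.prod_prod, Real.volume_Icc,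
    sub_zero, ENNReal.ofReal_one, mul_one]

private theorem m20_le40 (S : Finset (ℤ × ℤ)) (b : ℤ × ℤ → ℂ) {M : ℝ} (hb : ∑ k ∈ S, ‖b k‖ ≤ M) : m20 S b ≤ M ^ 20 := by
  have := tq40
  have h1 : ∀ c, ‖tp S b c‖ ^ 20 ≤ M ^ 20 := fun c =>
    pow_le_pow_left₀ (norm_nonneg _) ((Pool.Agent.Helper92.GC.tp_norm_le S b c).trans hb) 20
  unfold m20
  calc ∫ c in Tq, ‖tp S b c‖ ^ 20 ≤ ∫ _c in Tq, M ^ 20 := by
        refine integral_mono ?_ (integrable_const _) h1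
        refine Integrable.of_bound (C := M ^ 20) ((Pool.Agent.Helper92.GC.tp_cont S b).norm.pow 20).aestronglyMeasurable
          (Eventually.of_forall fun c => ?_)
        rw [Real.norm_of_nonneg (by positivity)]
        exact h1 c
    _ = M ^ 20 := by simp

private theorem lf_nn40 (t₀ : ℝ) (S : Finset (ℤ × ℤ)) (a : ℤ × ℤ → ℂ) (R : R3) : 0 ≤ lf t₀ S a R :=
  Pool.Agent.Helper75.TW.m20_nonneg _ _

private theorem lf_ct40 (t₀ : ℝ) (S : Finset (ℤ × ℤ)) (a : ℤ × ℤ → ℂ) : Continuous (fun R : R3 => lf t₀ S a R) := by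
  unfold lf
  refine Pool.Agent.Helper75.TW.m20_cont_coef S (fun (R : R3) k => a k * ee (ln t₀ R k)) fun k _ => ?_
  refine continuous_const.mul (ee_cont.comp ?_)
  unfold ln
  fun_prop

private theorem lf_le40 (t₀ : ℝ) (S : Finset (ℤ × ℤ)) (a : ℤ × ℤ → ℂ) (R : R3) : lf t₀ S a R ≤ (∑ k ∈ S, ‖a k‖) ^ 20 := by
  refine m20_le40 S _ (le_of_eq (Finset.sum_congr rfl fun k _ => ?_))
  rw [norm_mul, ee_norm, mul_one]

private theorem lf_card40 {t₀ : ℝ} {S : Finset (ℤ × ℤ)} {a : ℤ × ℤ → ℂ} (ha : ∀ k, ‖a k‖ ≤ 1) (R : R3) : lf t₀ S a R ≤ (S.card : ℝ) ^ 20 := by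
  refine (lf_le40 t₀ S a R).trans (pow_le_pow_left₀ (Finset.sum_nonneg fun k _ => norm_nonneg _) ?_ 20)
  calc ∑ k ∈ S, ‖a k‖ ≤ ∑ _k ∈ S, (1 : ℝ) := Finset.sum_le_sum fun k _ => ha k
    _ = _ := by simp

private theorem wint40 {v : ℝ → ℝ} (h1 : ∫ R, v R = 1) : Integrable v := by
  by_contra hcon
  rw [integral_undef hcon] at h1
  exact zero_ne_one h1

/-- the measure `v(R) dR` -/
private noncomputable def nv (v : ℝ → ℝ) : Measure ℝ := (volume : Measure ℝ).withDensity fun R => ENNReal.ofReal (v R)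

private theorem prob40 {X : ℝ} {v : ℝ → ℝ} (hv : IsWt X v) : IsProbabilityMeasure (nv v) := by
  have hint : Integrable v := wint40 hv.int_one
  constructor
  unfold nv
  rw [withDensity_apply _ MeasurableSet.univ, Measure.restrict_univ,
    ← ofReal_integral_eq_lintegral_ofReal hint (Eventually.of_forall hv.nonneg), hv.int_one,
    ENNReal.ofReal_one]

/-- the measure on `ℝ³` -/
private noncomputable def n3 (v₁ v₂ v₃ : ℝ → ℝ) : Measure R3 := (nv v₁).prod ((nv v₂).prod (nv v₃))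

private theorem qs_cont40 (t₀ : ℝ) (S : Finset (ℤ × ℤ)) (a : ℤ × ℤ → ℂ) : Continuous (qs t₀ S a) := by
  unfold qs
  refine continuous_finsetSum _ fun k _ => continuous_const.mul (ee_cont.comp ?_)
  unfold dt ln
  fun_prop

private theorem qs_norm40 (t₀ : ℝ) (S : Finset (ℤ × ℤ)) (a : ℤ × ℤ → ℂ) (q : (ℝ × ℝ) × R3) :
    ‖qs t₀ S a q‖ ≤ ∑ k ∈ S, ‖a k‖ := by
  unfold qs
  refine (norm_sum_le _ _).trans (le_of_eq (Finset.sum_congr rfl fun k _ => ?_))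
  rw [norm_mul, ee_norm, mul_one]

private theorem qs_slice40 (t₀ : ℝ) (S : Finset (ℤ × ℤ)) (a : ℤ × ℤ → ℂ) (R : R3) (c : ℝ × ℝ) :
    qs t₀ S a (c, R) = tp S (fun k => a k * ee (ln t₀ R k)) c := by
  unfold qs tp
  refine Finset.sum_congr rfl fun k _ => ?_
  change a k * ee (dt k c + ln t₀ R k) = _
  rw [ee_add]
  ring

private theorem n20_eq40 {Y : ℝ} {v₁ v₂ v₃ : ℝ → ℝ} (h₁ : IsWt Y v₁) (h₂ : IsWt Y v₂) (h₃ : IsWt Y v₃) (t₀ : ℝ) (S : Finset (ℤ × ℤ)) (a : ℤ × ℤ → ℂ) :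
    n20 (mu3 v₁ v₂ v₃) (qs t₀ S a) = (∫ R, lf t₀ S a R ∂(n3 v₁ v₂ v₃)) ^ (1 / 10 : ℝ) := by
  unfold n20
  congr 1
  have := tq40
  have := prob40 h₁
  have := prob40 h₂
  have := prob40 h₃
  have hmu : mu3 v₁ v₂ v₃ = (volume.restrict Tq).prod (n3 v₁ v₂ v₃) := rfl
  have hp : IsProbabilityMeasure (n3 v₁ v₂ v₃) := by
    unfold n3
    infer_instance
  have hint : Integrable (fun q => ‖qs t₀ S a q‖ ^ 20) ((volume.restrict Tq).prod (n3 v₁ v₂ v₃)) := by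
    refine Integrable.of_bound (C := (∑ k ∈ S, ‖a k‖) ^ 20) ((qs_cont40 t₀ S a).norm.pow 20).aestronglyMeasurable
      (Eventually.of_forall fun q => ?_)
    rw [Real.norm_of_nonneg (by positivity)]
    exact pow_le_pow_left₀ (norm_nonneg _) (qs_norm40 t₀ S a q) 20
  rw [hmu, integral_prod_symm _ hint]
  refine integral_congr_ae (Eventually.of_forall fun R => ?_)
  simp only
  unfold lf m20
  simp only [qs_slice40]

/-- the density of `n3` -/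
private noncomputable def w3 (v₁ v₂ v₃ : ℝ → ℝ) (R : R3) : ℝ := v₁ R.1 * (v₂ R.2.1 * v₃ R.2.2)

private theorem w3_nonneg {v₁ v₂ v₃ : ℝ → ℝ} (h₁ : ∀ t, 0 ≤ v₁ t) (h₂ : ∀ t, 0 ≤ v₂ t) (h₃ : ∀ t, 0 ≤ v₃ t) (R : R3) : 0 ≤ w3 v₁ v₂ v₃ R :=
  mul_nonneg (h₁ _) (mul_nonneg (h₂ _) (h₃ _))

private theorem w3_cont {v₁ v₂ v₃ : ℝ → ℝ} (h₁ : Continuous v₁) (h₂ : Continuous v₂) (h₃ : Continuous v₃) : Continuous (w3 v₁ v₂ v₃) := by
  unfold w3
  fun_prop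

private theorem n3_density {v₁ v₂ v₃ : ℝ → ℝ} (h₁ : Continuous v₁) (h₂ : Continuous v₂) (h₃ : Continuous v₃)
    (p₁ : ∀ t, 0 ≤ v₁ t) (p₂ : ∀ t, 0 ≤ v₂ t) :
    n3 v₁ v₂ v₃ = (volume : Measure R3).withDensity (fun R => ENNReal.ofReal (w3 v₁ v₂ v₃ R)) := by
  unfold n3 nv
  have m₁ : Measurable fun R => ENNReal.ofReal (v₁ R) := h₁.measurable.ennreal_ofReal
  have m₂ : Measurable fun R => ENNReal.ofReal (v₂ R) := h₂.measurable.ennreal_ofReal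
  have m₃ : Measurable fun R => ENNReal.ofReal (v₃ R) := h₃.measurable.ennreal_ofReal
  have m₂₃ : Measurable fun z : ℝ × ℝ => ENNReal.ofReal (v₂ z.1) * ENNReal.ofReal (v₃ z.2) :=
    (m₂.comp measurable_fst).mul (m₃.comp measurable_snd)
  rw [prod_withDensity m₂ m₃, prod_withDensity m₁ m₂₃]
  have e : (fun z : ℝ × ℝ × ℝ => ENNReal.ofReal (v₁ z.1) * (ENNReal.ofReal (v₂ z.2.1) * ENNReal.ofReal (v₃ z.2.2))) =
      fun R : R3 => ENNReal.ofReal (w3 v₁ v₂ v₃ R) := by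
    funext z
    unfold w3
    rw [ENNReal.ofReal_mul (p₁ _), ENNReal.ofReal_mul (p₂ _)]
  rw [e]
  rfl

private theorem set40 {Y : ℝ} {v₁ v₂ v₃ : ℝ → ℝ} (h₁ : IsWt Y v₁) (h₂ : IsWt Y v₂) (h₃ : IsWt Y v₃) (F : R3 → ℝ) {s : Set R3} (hs : MeasurableSet s) :
    ∫ R in s, F R ∂(n3 v₁ v₂ v₃) = ∫ R in s, w3 v₁ v₂ v₃ R * F R := by
  rw [n3_density h₁.cont h₂.cont h₃.cont h₁.nonneg h₂.nonneg, restrict_withDensity hs,
    integral_withDensity_eq_integral_toReal_smul ((w3_cont h₁.cont h₂.cont h₃.cont).measurable.ennreal_ofReal)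
      (Filter.Eventually.of_forall fun _ => ENNReal.ofReal_lt_top)]
  refine integral_congr_ae (Eventually.of_forall fun R => ?_)
  simp only
  rw [ENNReal.toReal_ofReal (w3_nonneg h₁.nonneg h₂.nonneg h₃.nonneg R), smul_eq_mul]

private theorem n3_prob {Y : ℝ} {v₁ v₂ v₃ : ℝ → ℝ} (h₁ : IsWt Y v₁) (h₂ : IsWt Y v₂) (h₃ : IsWt Y v₃) : IsProbabilityMeasure (n3 v₁ v₂ v₃) := by
  have := prob40 h₁
  have := prob40 h₂
  have := prob40 h₃
  unfold n3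
  infer_instance

private theorem F_int40 {Y : ℝ} {v₁ v₂ v₃ : ℝ → ℝ} (h₁ : IsWt Y v₁) (h₂ : IsWt Y v₂) (h₃ : IsWt Y v₃) {F : R3 → ℝ} (hF : Continuous F)
    (h0 : ∀ R, 0 ≤ F R) {D : ℝ} (hD : ∀ R, F R ≤ D) : Integrable F (n3 v₁ v₂ v₃) := by
  have := n3_prob h₁ h₂ h₃
  refine Integrable.of_bound (C := D) hF.aestronglyMeasurable (Eventually.of_forall fun R => ?_)
  rw [Real.norm_of_nonneg (h0 R)]
  exact hD R

private theorem ball40 (R₀ : R3) (ρ : ℝ) : Metric.closedBall R₀ ρ =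
    Icc (R₀.1 - ρ) (R₀.1 + ρ) ×ˢ (Icc (R₀.2.1 - ρ) (R₀.2.1 + ρ) ×ˢ Icc (R₀.2.2 - ρ) (R₀.2.2 + ρ)) := by
  obtain ⟨x, y, z⟩ := R₀
  simp only [← Real.closedBall_eq_Icc, closedBall_prod_same]

/-- the ball against the weights -/
private theorem low40 {r c₀ : ℝ} {Cd : ℕ → ℝ} {R₀ : R3} {v₁ v₂ v₃ : ℝ → ℝ} (hr : 0 < r) (hc : 0 < c₀)
    (h₁ : IsDw (2 * r) (R₀.1 - r) v₁ c₀ Cd) (h₂ : IsDw (2 * r) (R₀.2.1 - r) v₂ c₀ Cd) (h₃ : IsDw (2 * r) (R₀.2.2 - r) v₃ c₀ Cd)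
    {F : R3 → ℝ} (hF : Continuous F) (h0 : ∀ R, 0 ≤ F R) {D : ℝ} (hD : ∀ R, F R ≤ D) :
    ∫ R in Metric.closedBall R₀ r, F R ≤ (2 * r / c₀) ^ 3 * ∫ R, F R ∂(n3 v₁ v₂ v₃) := by
  have hm : MeasurableSet (Metric.closedBall R₀ r) := Metric.isClosed_closedBall.measurableSet
  have hcp : IsCompact (Metric.closedBall R₀ r) := isCompact_closedBall R₀ r
  have hwc := w3_cont h₁.wt.cont h₂.wt.cont h₃.wt.cont
  have h2r : 0 < 2 * r := by positivity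
  have hK : 0 < (2 * r / c₀) ^ 3 := by positivity
  have h1 : ∫ R in Metric.closedBall R₀ r, F R ≤ ∫ R in Metric.closedBall R₀ r, (2 * r / c₀) ^ 3 * (w3 v₁ v₂ v₃ R * F R) := by
    refine setIntegral_mono_on (hF.continuousOn.integrableOn_compact hcp)
      (((continuous_const.mul (hwc.mul hF)).continuousOn).integrableOn_compact hcp) hm fun R hR => ?_
    rw [ball40] at hR
    obtain ⟨g1, g2, g3⟩ := hR
    have e : ∀ x : ℝ, x - r + 2 * r = x + r := fun x => by ring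
    have l1 := h₁.low R.1 (by rw [e]; exact g1)
    have l2 := h₂.low R.2.1 (by rw [e]; exact g2)
    have l3 := h₃.low R.2.2 (by rw [e]; exact g3)
    have hc2 : 0 < c₀ / (2 * r) := by positivity
    have l4 : c₀ / (2 * r) * (c₀ / (2 * r) * (c₀ / (2 * r))) ≤ w3 v₁ v₂ v₃ R := by
      exact mul_le_mul l1 (mul_le_mul l2 l3 hc2.le (h₂.wt.nonneg _)) (mul_nonneg hc2.le hc2.le) (h₁.wt.nonneg _)
    have l5 : 1 ≤ (2 * r / c₀) ^ 3 * w3 v₁ v₂ v₃ R := by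
      calc (1 : ℝ) = (2 * r / c₀) ^ 3 * (c₀ / (2 * r) * (c₀ / (2 * r) * (c₀ / (2 * r)))) := by field_simp
        _ ≤ _ := mul_le_mul_of_nonneg_left l4 hK.le
    calc F R = 1 * F R := (one_mul _).symm
      _ ≤ ((2 * r / c₀) ^ 3 * w3 v₁ v₂ v₃ R) * F R := mul_le_mul_of_nonneg_right l5 (h0 R)
      _ = _ := by ring
  refine h1.trans ?_
  rw [integral_const_mul, ← set40 h₁.wt h₂.wt h₃.wt F hm]
  exact mul_le_mul_of_nonneg_left (setIntegral_le_integral (F_int40 h₁.wt h₂.wt h₃.wt hF h0 hD)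
    (Filter.Eventually.of_forall h0)) hK.le

/-- tails of the weights -/
private theorem tail40 {X R₁ κ c₀ : ℝ} {v : ℝ → ℝ} {Cd : ℕ → ℝ} (hX : 0 < X) (hκ : 0 < κ) {A B : ℝ}
    (hfar : ∀ t ∈ (Icc A B)ᶜ, κ * X ≤ |t - R₁|) (hv : IsDw X R₁ v c₀ Cd) (n : ℕ) :
    ∫ t in (Icc A B)ᶜ, v t ≤ κ⁻¹ ^ n * (π * (Cd n + Cd (n + 2))) := by
  obtain ⟨h1, h2⟩ := Pool.Agent.Helper92.GC.dw_tail hX hv n
  have hvi := wint40 hv.wt.int_one
  have h3 : ∫ t in (Icc A B)ᶜ, v t ≤ ∫ t in (Icc A B)ᶜ, κ⁻¹ ^ n * (v t * (|t - R₁| / X) ^ n) := by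
    refine setIntegral_mono_on hvi.integrableOn (h1.const_mul _).integrableOn measurableSet_Icc.compl fun t ht => ?_
    have hone : 1 ≤ κ⁻¹ * (|t - R₁| / X) := by
      rw [inv_mul_eq_div, le_div_iff₀ hκ, one_mul, le_div_iff₀ hX]
      exact hfar t ht
    have hpow : 1 ≤ κ⁻¹ ^ n * (|t - R₁| / X) ^ n := by
      rw [← mul_pow]
      exact one_le_pow₀ hone
    calc v t = v t * 1 := (mul_one _).symm
      _ ≤ v t * (κ⁻¹ ^ n * (|t - R₁| / X) ^ n) := mul_le_mul_of_nonneg_left hpow (hv.wt.nonneg t)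
      _ = _ := by ring
  refine h3.trans ?_
  have h4 : ∫ t in (Icc A B)ᶜ, κ⁻¹ ^ n * (v t * (|t - R₁| / X) ^ n) ≤
      ∫ t, κ⁻¹ ^ n * (v t * (|t - R₁| / X) ^ n) :=
    setIntegral_le_integral (h1.const_mul _) (Filter.Eventually.of_forall fun t => by
      have := hv.wt.nonneg t
      positivity)
  refine h4.trans ?_
  rw [integral_const_mul]
  exact mul_le_mul_of_nonneg_left h2 (by positivity)

/-- the mass of the complement of an interval -/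
private theorem nv_compl40 {r κ x c₀ : ℝ} {v : ℝ → ℝ} {Cd : ℕ → ℝ} (hr : 0 < r) (hκ : 4 ≤ κ) (hv : IsDw (2 * r) (x - r) v c₀ Cd) (n : ℕ) :
    nv v (Icc (x - κ * r) (x + κ * r))ᶜ ≤ ENNReal.ofReal ((3 / 8 * κ)⁻¹ ^ n * (π * (Cd n + Cd (n + 2)))) := by
  have hvi := wint40 hv.wt.int_one
  have h1 : ∫ t in (Icc (x - κ * r) (x + κ * r))ᶜ, v t ≤ (3 / 8 * κ)⁻¹ ^ n * (π * (Cd n + Cd (n + 2))) := by
    refine tail40 (by positivity) (by positivity) (fun t ht => ?_) hv n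
    rw [mem_compl_iff, mem_Icc, not_and_or, not_le, not_le] at ht
    rcases ht with ht | ht
    · have h2 : 3 / 8 * κ * (2 * r) ≤ -(t - (x - r)) := by nlinarith
      exact h2.trans (neg_le_abs _)
    · have h2 : 3 / 8 * κ * (2 * r) ≤ t - (x - r) := by nlinarith
      exact h2.trans (le_abs_self _)
  unfold nv
  rw [withDensity_apply _ measurableSet_Icc.compl, ← ofReal_integral_eq_lintegral_ofReal hvi.integrableOn
    (Eventually.of_forall hv.wt.nonneg)]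
  exact ENNReal.ofReal_le_ofReal h1

/-- the weights against the ball of radius `κ r` -/
private theorem up40 {r κ c₀ : ℝ} {Cd : ℕ → ℝ} {R₀ : R3} {v₁ v₂ v₃ : ℝ → ℝ} (hr : 0 < r) (hκ : 4 ≤ κ)
    (h₁ : IsDw (2 * r) (R₀.1 - r) v₁ c₀ Cd) (h₂ : IsDw (2 * r) (R₀.2.1 - r) v₂ c₀ Cd) (h₃ : IsDw (2 * r) (R₀.2.2 - r) v₃ c₀ Cd)
    {F : R3 → ℝ} (hF : Continuous F) (h0 : ∀ R, 0 ≤ F R) {D : ℝ} (hD : ∀ R, F R ≤ D) (n : ℕ) :
    ∫ R, F R ∂(n3 v₁ v₂ v₃) ≤ (Cd 0 / (2 * r)) ^ 3 * (∫ R in Metric.closedBall R₀ (κ * r), F R) +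
      D * (3 * ((3 / 8 * κ)⁻¹ ^ n * (π * (Cd n + Cd (n + 2))))) := by
  have hm : MeasurableSet (Metric.closedBall R₀ (κ * r)) := Metric.isClosed_closedBall.measurableSet
  have hcp : IsCompact (Metric.closedBall R₀ (κ * r)) := isCompact_closedBall R₀ (κ * r)
  have hwc := w3_cont h₁.wt.cont h₂.wt.cont h₃.wt.cont
  have hpr := n3_prob h₁.wt h₂.wt h₃.wt
  have hp1 := prob40 h₁.wt
  have hp2 := prob40 h₂.wt
  have hp3 := prob40 h₃.wt
  have h2r : 0 < 2 * r := by positivity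
  have hD0 : 0 ≤ D := (h0 0).trans (hD 0)
  have hFi := F_int40 h₁.wt h₂.wt h₃.wt hF h0 hD
  have d1 : ∀ t, v₁ t ≤ Cd 0 / (2 * r) := fun t => by have := h₁.dec 0 t; simpa using this
  have d2 : ∀ t, v₂ t ≤ Cd 0 / (2 * r) := fun t => by have := h₂.dec 0 t; simpa using this
  have d3 : ∀ t, v₃ t ≤ Cd 0 / (2 * r) := fun t => by have := h₃.dec 0 t; simpa using this
  have dk : 0 ≤ Cd 0 / (2 * r) := (h₁.wt.nonneg 0).trans (d1 0)
  rw [← integral_add_compl hm hFi]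
  refine add_le_add ?_ ?_
  · rw [set40 h₁.wt h₂.wt h₃.wt F hm, ← integral_const_mul]
    refine setIntegral_mono_on (((hwc.mul hF).continuousOn).integrableOn_compact hcp)
      (((continuous_const.mul hF).continuousOn).integrableOn_compact hcp) hm fun R _ => ?_
    refine mul_le_mul_of_nonneg_right ?_ (h0 R)
    unfold w3
    calc v₁ R.1 * (v₂ R.2.1 * v₃ R.2.2) ≤ Cd 0 / (2 * r) * (Cd 0 / (2 * r) * (Cd 0 / (2 * r))) := by
          refine mul_le_mul (d1 _) (mul_le_mul (d2 _) (d3 _) (h₃.wt.nonneg _) dk)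
            (mul_nonneg (h₂.wt.nonneg _) (h₃.wt.nonneg _)) dk
      _ = (Cd 0 / (2 * r)) ^ 3 := by ring
  · obtain ⟨T, hT⟩ : ∃ T : ℝ, T = (3 / 8 * κ)⁻¹ ^ n * (π * (Cd n + Cd (n + 2))) := ⟨_, rfl⟩
    have t1 := nv_compl40 hr hκ h₁ n
    have t2 := nv_compl40 hr hκ h₂ n
    have t3 := nv_compl40 hr hκ h₃ n
    have hT0 : 0 ≤ T := by
      have e0 : ∀ k : ℕ, 0 ≤ Cd k := by
        intro k
        have e2 : 0 ≤ v₁ (R₀.1 - r) * (|R₀.1 - r - (R₀.1 - r)| / (2 * r)) ^ k :=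
          mul_nonneg (h₁.wt.nonneg _) (by positivity)
        have e3 := e2.trans (h₁.dec k (R₀.1 - r))
        by_contra hc3
        push Not at hc3
        have := div_neg_of_neg_of_pos hc3 h2r
        linarith
      rw [hT]
      have := e0 n
      have := e0 (n + 2)
      have : 0 < κ := by linarith
      have := Real.pi_pos
      positivity
    rw [← hT] at t1 t2 t3 ⊢
    have hsub : (Metric.closedBall R₀ (κ * r))ᶜ ⊆
        ((Icc (R₀.1 - κ * r) (R₀.1 + κ * r))ᶜ ×ˢ (univ : Set (ℝ × ℝ))) ∪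
        (((univ : Set ℝ) ×ˢ ((Icc (R₀.2.1 - κ * r) (R₀.2.1 + κ * r))ᶜ ×ˢ (univ : Set ℝ))) ∪
          ((univ : Set ℝ) ×ˢ ((univ : Set ℝ) ×ˢ (Icc (R₀.2.2 - κ * r) (R₀.2.2 + κ * r))ᶜ))) := by
      intro R hR
      rw [ball40] at hR
      by_contra hcon
      simp only [mem_union, mem_prod, mem_univ, and_true, true_and, mem_compl_iff, not_or, not_not] at hcon
      exact hR ⟨hcon.1, hcon.2.1, hcon.2.2⟩
    have hmass : n3 v₁ v₂ v₃ (Metric.closedBall R₀ (κ * r))ᶜ ≤ ENNReal.ofReal (3 * T) := by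
      refine (measure_mono hsub).trans ((measure_union_le _ _).trans ?_)
      have s1 : n3 v₁ v₂ v₃ ((Icc (R₀.1 - κ * r) (R₀.1 + κ * r))ᶜ ×ˢ (univ : Set (ℝ × ℝ))) ≤ ENNReal.ofReal T := by
        unfold n3
        rw [Measure.prod_prod, measure_univ, mul_one]
        exact t1
      have s2 : n3 v₁ v₂ v₃ ((univ : Set ℝ) ×ˢ ((Icc (R₀.2.1 - κ * r) (R₀.2.1 + κ * r))ᶜ ×ˢ (univ : Set ℝ))) ≤ ENNReal.ofReal T := by
        unfold n3
        rw [Measure.prod_prod, Measure.prod_prod, measure_univ, measure_univ, mul_one, one_mul]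
        exact t2
      have s3 : n3 v₁ v₂ v₃ ((univ : Set ℝ) ×ˢ ((univ : Set ℝ) ×ˢ (Icc (R₀.2.2 - κ * r) (R₀.2.2 + κ * r))ᶜ)) ≤ ENNReal.ofReal T := by
        unfold n3
        rw [Measure.prod_prod, Measure.prod_prod, measure_univ, measure_univ, one_mul, one_mul]
        exact t3
      have e3 : ENNReal.ofReal (3 * T) = ENNReal.ofReal T + (ENNReal.ofReal T + ENNReal.ofReal T) := by
        rw [← ENNReal.ofReal_add hT0 hT0, ← ENNReal.ofReal_add hT0 (add_nonneg hT0 hT0)]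
        congr 1
        ring
      rw [e3]
      exact add_le_add s1 ((measure_union_le _ _).trans (add_le_add s2 s3))
    have h5 : ∫ R in (Metric.closedBall R₀ (κ * r))ᶜ, F R ∂(n3 v₁ v₂ v₃) ≤
        ∫ _R in (Metric.closedBall R₀ (κ * r))ᶜ, D ∂(n3 v₁ v₂ v₃) :=
      setIntegral_mono_on hFi.integrableOn (integrable_const D).integrableOn hm.compl fun R _ => hD R
    refine h5.trans ?_
    rw [setIntegral_const, smul_eq_mul, mul_comm]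
    refine mul_le_mul_of_nonneg_left ?_ hD0
    exact ENNReal.toReal_le_of_le_ofReal (by positivity) hmass

theorem boxdec {ε lam C₀ : ℝ} {M : ℕ} (_hl : 1 ≤ lam) (_hM : 2 ≤ M) (hC₀ : 1 ≤ C₀) (hd : Dec20 ε lam M C₀) (n : ℕ) : ∃ C E : ℝ, 1 ≤ C ∧ 1 ≤ E ∧
    ∀ (m : ℕ) (H r κ t₀ : ℝ) (R₀ : R3) (a : ℤ × ℤ → ℂ) (S : Finset (ℤ × ℤ)), (∀ k, ‖a k‖ ≤ 1) → |t₀| ≤ 3 → 0 < H → 0 < r → 4 ≤ κ →
      (∀ k ∈ S, H / lam ≤ uu 0 k ∧ uu 0 k ≤ lam * H ∧ |tt 0 k - t₀| ≤ 1) → C * (M : ℝ) ^ (4 * m) ≤ H * r →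
      (∫ R in Metric.closedBall R₀ r, lf t₀ S a R) ^ (1 / 10 : ℝ) ≤ C * (M : ℝ) ^ (ε * (m : ℝ)) *
        ∑ j ∈ Finset.range (M ^ m), ((∫ R in Metric.closedBall R₀ (κ * r), lf t₀ (arc 0 S (M ^ m) j) a R) + E * r ^ 3 * (S.card : ℝ) ^ 20 * κ⁻¹ ^ n) ^ (1 / 10 : ℝ) := by
  obtain ⟨c₀, hc, Cd, hdw⟩ := Pool.Agent.Helper92.GC.exists_dw
  obtain ⟨A, hA⟩ : ∃ A : ℝ, A = max 1 ((Cd 0 / c₀) ^ 3) := ⟨_, rfl⟩
  have hA1 : 1 ≤ A := by rw [hA]; exact le_max_left _ _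
  have hA2 : (Cd 0 / c₀) ^ 3 ≤ A := by rw [hA]; exact le_max_right _ _
  obtain ⟨P, hP⟩ : ∃ P : ℝ, P = 24 / c₀ ^ 3 * ((8 / 3) ^ n * (π * (|Cd n| + |Cd (n + 2)|))) := ⟨_, rfl⟩
  have hP0 : 0 ≤ P := by
    rw [hP]
    have := Real.pi_pos
    positivity
  refine ⟨C₀ * A, 1 + P, one_le_mul_of_one_le_of_one_le hC₀ hA1, by linarith, ?_⟩
  intro m H r κ t₀ R₀ a S ha ht hH hr hκ hS hcond
  have hκ0 : 0 < κ := by linarith
  obtain ⟨v₁, h₁⟩ := hdw (2 * r) (by positivity) (R₀.1 - r)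
  obtain ⟨v₂, h₂⟩ := hdw (2 * r) (by positivity) (R₀.2.1 - r)
  obtain ⟨v₃, h₃⟩ := hdw (2 * r) (by positivity) (R₀.2.2 - r)
  have hMm : (0 : ℝ) ≤ (M : ℝ) ^ (4 * m) := by positivity
  have hcond' : C₀ * (M : ℝ) ^ (4 * m) ≤ H * (2 * r) := by
    have h1 : C₀ * (M : ℝ) ^ (4 * m) ≤ C₀ * A * (M : ℝ) ^ (4 * m) := by
      refine mul_le_mul_of_nonneg_right ?_ hMm
      nlinarith
    have h2 : H * r ≤ H * (2 * r) := by nlinarith [mul_pos hH hr]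
    linarith
  have hdec := hd m H (2 * r) t₀ v₁ v₂ v₃ a S hH (by positivity) ht h₁.wt h₂.wt h₃.wt hS hcond'
  rw [n20_eq40 h₁.wt h₂.wt h₃.wt] at hdec
  obtain ⟨K, hK⟩ : ∃ K : ℝ, K = (2 * r / c₀) ^ 3 := ⟨_, rfl⟩
  have hK0 : 0 < K := by rw [hK]; positivity
  obtain ⟨N, hN⟩ : ∃ N : Finset (ℤ × ℤ) → ℝ, N = fun T => ∫ R, lf t₀ T a R ∂(n3 v₁ v₂ v₃) := ⟨_, rfl⟩
  have hN0 : ∀ T, 0 ≤ N T := by
    intro T
    rw [hN]
    exact integral_nonneg fun R => lf_nn40 _ _ _ _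
  have hlow : ∫ R in Metric.closedBall R₀ r, lf t₀ S a R ≤ K * N S := by
    rw [hK, hN]
    exact low40 hr hc h₁ h₂ h₃ (lf_ct40 t₀ S a) (lf_nn40 t₀ S a) (lf_card40 ha)
  have hball0 : 0 ≤ ∫ R in Metric.closedBall R₀ r, lf t₀ S a R := integral_nonneg fun R => lf_nn40 _ _ _ _
  have hstep1 : (∫ R in Metric.closedBall R₀ r, lf t₀ S a R) ^ (1 / 10 : ℝ) ≤
      K ^ (1 / 10 : ℝ) * (C₀ * (M : ℝ) ^ (ε * (m : ℝ)) * ∑ j ∈ Finset.range (M ^ m), N (arc 0 S (M ^ m) j) ^ (1 / 10 : ℝ)) := by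
    calc (∫ R in Metric.closedBall R₀ r, lf t₀ S a R) ^ (1 / 10 : ℝ) ≤ (K * N S) ^ (1 / 10 : ℝ) :=
          Real.rpow_le_rpow hball0 hlow (by norm_num)
      _ = K ^ (1 / 10 : ℝ) * N S ^ (1 / 10 : ℝ) := Real.mul_rpow hK0.le (hN0 S)
      _ ≤ _ := by
          refine mul_le_mul_of_nonneg_left ?_ (Real.rpow_nonneg hK0.le _)
          rw [hN]
          refine hdec.trans (le_of_eq ?_)
          congr 1
          refine Finset.sum_congr rfl fun j _ => ?_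
          exact n20_eq40 h₁.wt h₂.wt h₃.wt t₀ _ a
  refine hstep1.trans ?_
  have hMe : 0 ≤ (M : ℝ) ^ (ε * (m : ℝ)) := Real.rpow_nonneg (by positivity) _
  have hterm : ∀ j ∈ Finset.range (M ^ m), K ^ (1 / 10 : ℝ) * N (arc 0 S (M ^ m) j) ^ (1 / 10 : ℝ) ≤
      A * ((∫ R in Metric.closedBall R₀ (κ * r), lf t₀ (arc 0 S (M ^ m) j) a R) + (1 + P) * r ^ 3 * (S.card : ℝ) ^ 20 * κ⁻¹ ^ n) ^ (1 / 10 : ℝ) := by
    intro j _
    obtain ⟨T, hTd⟩ : ∃ T : Finset (ℤ × ℤ), T = arc 0 S (M ^ m) j := ⟨_, rfl⟩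
    rw [← hTd]
    have hTS : T ⊆ S := by
      rw [hTd]
      exact Finset.filter_subset _ _
    have hcard : (T.card : ℝ) ^ 20 ≤ (S.card : ℝ) ^ 20 := by
      have : (T.card : ℝ) ≤ S.card := by exact_mod_cast Finset.card_le_card hTS
      exact pow_le_pow_left₀ (by positivity) this 20
    have hup := up40 (n := n) hr hκ h₁ h₂ h₃ (lf_ct40 t₀ T a) (lf_nn40 t₀ T a)
      (fun R => (lf_card40 ha R).trans hcard)
    obtain ⟨B, hB⟩ : ∃ B : ℝ, B = ∫ R in Metric.closedBall R₀ (κ * r), lf t₀ T a R := ⟨_, rfl⟩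
    have hB0 : 0 ≤ B := by
      rw [hB]
      exact integral_nonneg fun R => lf_nn40 _ _ _ _
    obtain ⟨G, hG⟩ : ∃ G : ℝ, G = (S.card : ℝ) ^ 20 * κ⁻¹ ^ n := ⟨_, rfl⟩
    have hG0 : 0 ≤ G := by rw [hG]; positivity
    rw [← hB] at hup ⊢
    have hKN : K * N T ≤ A * (B + (1 + P) * r ^ 3 * (S.card : ℝ) ^ 20 * κ⁻¹ ^ n) := by
      have e1 : N T ≤ (Cd 0 / (2 * r)) ^ 3 * B + (S.card : ℝ) ^ 20 * (3 * ((3 / 8 * κ)⁻¹ ^ n * (π * (Cd n + Cd (n + 2))))) := by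
        rw [hN]
        exact hup
      have e2 : K * ((Cd 0 / (2 * r)) ^ 3 * B) = (Cd 0 / c₀) ^ 3 * B := by
        rw [hK]
        field_simp
      have e3 : (3 / 8 * κ)⁻¹ ^ n = (8 / 3) ^ n * κ⁻¹ ^ n := by
        rw [← mul_pow]
        congr 1
        field_simp
      have e4 : K * ((S.card : ℝ) ^ 20 * (3 * ((3 / 8 * κ)⁻¹ ^ n * (π * (Cd n + Cd (n + 2)))))) ≤ P * r ^ 3 * G := by
        rw [e3, hK, hP, hG]
        have e5 : Cd n + Cd (n + 2) ≤ |Cd n| + |Cd (n + 2)| := add_le_add (le_abs_self _) (le_abs_self _)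
        have hpi := Real.pi_pos
        have e6 : (2 * r / c₀) ^ 3 * ((S.card : ℝ) ^ 20 * (3 * ((8 / 3) ^ n * κ⁻¹ ^ n * (π * (Cd n + Cd (n + 2)))))) =
            (24 / c₀ ^ 3 * ((8 / 3) ^ n * (π * (Cd n + Cd (n + 2))))) * (r ^ 3 * ((S.card : ℝ) ^ 20 * κ⁻¹ ^ n)) := by
          field_simp
          ring
        rw [e6, mul_assoc _ (r ^ 3)]
        refine mul_le_mul_of_nonneg_right ?_ (by positivity)
        gcongr
      have e7 : K * N T ≤ (Cd 0 / c₀) ^ 3 * B + P * r ^ 3 * G := by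
        calc K * N T ≤ K * ((Cd 0 / (2 * r)) ^ 3 * B + (S.card : ℝ) ^ 20 * (3 * ((3 / 8 * κ)⁻¹ ^ n * (π * (Cd n + Cd (n + 2)))))) :=
              mul_le_mul_of_nonneg_left e1 hK0.le
          _ = K * ((Cd 0 / (2 * r)) ^ 3 * B) + K * ((S.card : ℝ) ^ 20 * (3 * ((3 / 8 * κ)⁻¹ ^ n * (π * (Cd n + Cd (n + 2)))))) := by ring
          _ ≤ _ := by
              rw [e2]
              exact add_le_add le_rfl e4
      have e8 : (1 + P) * r ^ 3 * (S.card : ℝ) ^ 20 * κ⁻¹ ^ n = (1 + P) * r ^ 3 * G := by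
        rw [hG]
        ring
      rw [e8]
      have e9 : (Cd 0 / c₀) ^ 3 * B ≤ A * B := mul_le_mul_of_nonneg_right hA2 hB0
      have e10 : 0 ≤ r ^ 3 * G := by positivity
      have e11 : P * r ^ 3 * G ≤ A * ((1 + P) * r ^ 3 * G) := by
        have : P ≤ A * (1 + P) := by nlinarith
        calc P * r ^ 3 * G = P * (r ^ 3 * G) := by ring
          _ ≤ A * (1 + P) * (r ^ 3 * G) := mul_le_mul_of_nonneg_right this e10
          _ = _ := by ring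
      linarith
    have hbr0 : 0 ≤ B + (1 + P) * r ^ 3 * (S.card : ℝ) ^ 20 * κ⁻¹ ^ n := by positivity
    calc K ^ (1 / 10 : ℝ) * N T ^ (1 / 10 : ℝ) = (K * N T) ^ (1 / 10 : ℝ) := (Real.mul_rpow hK0.le (hN0 T)).symm
      _ ≤ (A * (B + (1 + P) * r ^ 3 * (S.card : ℝ) ^ 20 * κ⁻¹ ^ n)) ^ (1 / 10 : ℝ) :=
          Real.rpow_le_rpow (mul_nonneg hK0.le (hN0 T)) hKN (by norm_num)
      _ = A ^ (1 / 10 : ℝ) * (B + (1 + P) * r ^ 3 * (S.card : ℝ) ^ 20 * κ⁻¹ ^ n) ^ (1 / 10 : ℝ) :=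
          Real.mul_rpow (by linarith) hbr0
      _ ≤ A * (B + (1 + P) * r ^ 3 * (S.card : ℝ) ^ 20 * κ⁻¹ ^ n) ^ (1 / 10 : ℝ) := by
          refine mul_le_mul_of_nonneg_right ?_ (Real.rpow_nonneg hbr0 _)
          calc A ^ (1 / 10 : ℝ) ≤ A ^ (1 : ℝ) := Real.rpow_le_rpow_of_exponent_le hA1 (by norm_num)
            _ = A := Real.rpow_one A
  calc K ^ (1 / 10 : ℝ) * (C₀ * (M : ℝ) ^ (ε * (m : ℝ)) * ∑ j ∈ Finset.range (M ^ m), N (arc 0 S (M ^ m) j) ^ (1 / 10 : ℝ))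
      = C₀ * (M : ℝ) ^ (ε * (m : ℝ)) * ∑ j ∈ Finset.range (M ^ m), K ^ (1 / 10 : ℝ) * N (arc 0 S (M ^ m) j) ^ (1 / 10 : ℝ) := by
        rw [← Finset.mul_sum]
        ring
    _ ≤ C₀ * (M : ℝ) ^ (ε * (m : ℝ)) * ∑ j ∈ Finset.range (M ^ m),
        A * ((∫ R in Metric.closedBall R₀ (κ * r), lf t₀ (arc 0 S (M ^ m) j) a R) + (1 + P) * r ^ 3 * (S.card : ℝ) ^ 20 * κ⁻¹ ^ n) ^ (1 / 10 : ℝ) := by
        refine mul_le_mul_of_nonneg_left (Finset.sum_le_sum hterm) (mul_nonneg (by linarith) hMe)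
    _ = _ := by
        rw [← Finset.mul_sum]
        ring

end Pool.Agent.Helper60.QL
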